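import Mathlib

set_option autoImplicit false

namespace Pool.Agent.Results.MP_091ced_gt.Closed

open Set Topology

universe u

/-- the derived set. -/
def der {X : Type u} [TopologicalSpace X] (A : Set X) : Set X := {x | x ∈ closure (A \ {x})}

theorem result (X : Type u) [TopologicalSpace X] [T0Space X] (A : Set X) :
    IsClosed (der (der A)) := by
  refine isClosed_of_closure_subset fun x hx => ?_
  by_contra hx'
  have h1 : ∃ U, IsOpen U ∧ x ∈ U ∧ U ∩ der A ⊆ {x} := by
    refine ⟨(closure (der A \ {x}))ᶜ, isClosed_closure.isOpen_compl, hx', fun z hz => ?_⟩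
    by_contra h
    exact hz.1 (subset_closure ⟨hz.2, h⟩)
  obtain ⟨U, hU, hxU, hUA⟩ := h1
  obtain ⟨y, hyU, hy⟩ := mem_closure_iff.1 hx U hU hxU
  have hyx : y ≠ x := fun h => hx' (h ▸ hy)
  have h2 : ∀ V, IsOpen V → y ∈ V → x ∈ V ∧ x ∈ der A := by
    intro V hV hyV
    obtain ⟨z, h1, h2, -⟩ := mem_closure_iff.1 hy _ (hU.inter hV) ⟨hyU, hyV⟩
    have : z = x := hUA ⟨h1.1, h2⟩
    exact this ▸ ⟨h1.2, h2⟩
  have h3 : x ∉ closure {y} := fun h => hyx (Inseparable.eq
    ((specializes_iff_mem_closure.2 h).antisymm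
      (specializes_iff_forall_open.2 fun V hV hyV => (h2 V hV hyV).1)))
  have h4 : y ∉ closure (A \ {y}) := fun h => hyx (hUA ⟨hyU, h⟩)
  obtain ⟨h5, h6⟩ := h2 _ isClosed_closure.isOpen_compl h4
  obtain ⟨z, h7, h8, -⟩ := mem_closure_iff.1 h6 _
    (isClosed_closure.isOpen_compl.inter isClosed_closure.isOpen_compl) ⟨h5, h3⟩
  exact h7.1 (subset_closure ⟨h8, fun h => h7.2 (subset_closure h)⟩)

end Pool.Agent.Results.MP_091ced_gt.Closed
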